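import Pool.Agent.Helper40_Dio.Stmt

set_option autoImplicit false

/-! # DIO, module EXT (helper9): one extrapolation step -/

namespace Pool.Agent.DIO.H9

open Real Pool.Agent.DIO

section Basic

variable {S : Type} [CommRing S] {O : Ord4 S}

/-- The coefficient as a real number. -/
noncomputable def cf (d : BData O) {L : ℕ} (p : Idx L → ℤ) (m1 m2 : ℕ) (x : Idx L) : ℝ :=
  (p x : ℝ) * ((gam1 d x : ℤ) : ℝ) ^ m1 * ((gam2 d x : ℤ) : ℝ) ^ m2

/-- The exponent. -/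
noncomputable def ww (d : BData O) {L : ℕ} (x : Idx L) : ℝ :=
  ((x.1 : ℕ) : ℝ) * log d.a1 + ((x.2.1 : ℕ) : ℝ) * log d.a2 + ((x.2.2 : ℕ) : ℝ) * log d.a3

/-- The approximation of the exponent. -/
noncomputable def th (d : BData O) {L : ℕ} (x : Idx L) : ℝ :=
  ((gam1 d x : ℤ) : ℝ) * log d.a1 + ((gam2 d x : ℤ) : ℝ) * log d.a2

theorem idx_le1 {L : ℕ} (x : Idx L) : ((x.1 : ℕ) : ℝ) ≤ L := by
  have := x.1.isLt
  exact_mod_cast Nat.lt_succ_iff.1 this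

theorem idx_le2 {L : ℕ} (x : Idx L) : ((x.2.1 : ℕ) : ℝ) ≤ L := by
  have := x.2.1.isLt
  exact_mod_cast Nat.lt_succ_iff.1 this

theorem idx_le3 {L : ℕ} (x : Idx L) : ((x.2.2 : ℕ) : ℝ) ≤ L := by
  have := x.2.2.isLt
  exact_mod_cast Nat.lt_succ_iff.1 this

theorem gam1_le (d : BData O) {L : ℕ} (x : Idx L) : |((gam1 d x : ℤ) : ℝ)| ≤ 2 * L * d.B := by
  have h1 := idx_le1 x
  have h3 := idx_le3 x
  have hB := d.hB
  have hb := d.hb1
  have h0 : (0 : ℝ) ≤ ((x.1 : ℕ) : ℝ) := Nat.cast_nonneg _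
  have h0' : (0 : ℝ) ≤ ((x.2.2 : ℕ) : ℝ) := Nat.cast_nonneg _
  have hL : (0 : ℝ) ≤ L := Nat.cast_nonneg _
  have e : ((gam1 d x : ℤ) : ℝ) = ((x.1 : ℕ) : ℝ) - (d.b1 : ℝ) * ((x.2.2 : ℕ) : ℝ) := by
    simp [gam1]
  rw [e]
  calc |((x.1 : ℕ) : ℝ) - (d.b1 : ℝ) * ((x.2.2 : ℕ) : ℝ)|
      ≤ |((x.1 : ℕ) : ℝ)| + |(d.b1 : ℝ) * ((x.2.2 : ℕ) : ℝ)| := abs_sub _ _
    _ = ((x.1 : ℕ) : ℝ) + |(d.b1 : ℝ)| * ((x.2.2 : ℕ) : ℝ) := by
        rw [abs_mul, abs_of_nonneg h0, abs_of_nonneg h0']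
    _ ≤ L + d.B * L := by
        have := mul_le_mul hb h3 h0' (by linarith)
        linarith
    _ ≤ 2 * L * d.B := by nlinarith

theorem gam2_le (d : BData O) {L : ℕ} (x : Idx L) : |((gam2 d x : ℤ) : ℝ)| ≤ 2 * L * d.B := by
  have h1 := idx_le2 x
  have h3 := idx_le3 x
  have hB := d.hB
  have hb := d.hb2
  have h0 : (0 : ℝ) ≤ ((x.2.1 : ℕ) : ℝ) := Nat.cast_nonneg _
  have h0' : (0 : ℝ) ≤ ((x.2.2 : ℕ) : ℝ) := Nat.cast_nonneg _
  have hL : (0 : ℝ) ≤ L := Nat.cast_nonneg _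
  have e : ((gam2 d x : ℤ) : ℝ) = ((x.2.1 : ℕ) : ℝ) - (d.b2 : ℝ) * ((x.2.2 : ℕ) : ℝ) := by
    simp [gam2]
  rw [e]
  calc |((x.2.1 : ℕ) : ℝ) - (d.b2 : ℝ) * ((x.2.2 : ℕ) : ℝ)|
      ≤ |((x.2.1 : ℕ) : ℝ)| + |(d.b2 : ℝ) * ((x.2.2 : ℕ) : ℝ)| := abs_sub _ _
    _ = ((x.2.1 : ℕ) : ℝ) + |(d.b2 : ℝ)| * ((x.2.2 : ℕ) : ℝ) := by
        rw [abs_mul, abs_of_nonneg h0, abs_of_nonneg h0']
    _ ≤ L + d.B * L := by
        have := mul_le_mul hb h3 h0' (by linarith)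
        linarith
    _ ≤ 2 * L * d.B := by nlinarith

theorem cf_le (d : BData O) {L k : ℕ} (hL : 1 ≤ L) {H0 : ℝ} (p : Idx L → ℤ)
    (hp : ∀ x, |(p x : ℝ)| ≤ exp H0) {m1 m2 : ℕ} (h1 : m1 ≤ k) (h2 : m2 ≤ k) (x : Idx L) :
    |cf d p m1 m2 x| ≤ exp H0 * (2 * L * d.B) ^ (2 * k) := by
  have hB := d.hB
  have hL' : (1 : ℝ) ≤ L := by exact_mod_cast hL
  have h2LB : (1 : ℝ) ≤ 2 * L * d.B := by nlinarith
  unfold cf
  rw [abs_mul, abs_mul, abs_pow, abs_pow]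
  have e1 : |((gam1 d x : ℤ) : ℝ)| ^ m1 ≤ (2 * L * d.B) ^ k :=
    (pow_le_pow_left₀ (abs_nonneg _) (gam1_le d x) _).trans (pow_le_pow_right₀ h2LB h1)
  have e2 : |((gam2 d x : ℤ) : ℝ)| ^ m2 ≤ (2 * L * d.B) ^ k :=
    (pow_le_pow_left₀ (abs_nonneg _) (gam2_le d x) _).trans (pow_le_pow_right₀ h2LB h2)
  calc |(p x : ℝ)| * |((gam1 d x : ℤ) : ℝ)| ^ m1 * |((gam2 d x : ℤ) : ℝ)| ^ m2
      ≤ exp H0 * (2 * L * d.B) ^ k * (2 * L * d.B) ^ k := by
        apply mul_le_mul _ e2 (by positivity) (by positivity)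
        exact mul_le_mul (hp x) e1 (by positivity) (by positivity)
    _ = exp H0 * (2 * L * d.B) ^ (2 * k) := by rw [two_mul k, pow_add]; ring

theorem card_idx (L : ℕ) : (Fintype.card (Idx L) : ℝ) = ((L : ℝ) + 1) ^ 3 := by
  simp only [Idx, Fintype.card_prod, Fintype.card_fin]
  push_cast
  ring

theorem sum_cf_le (d : BData O) {L k : ℕ} (hL : 1 ≤ L) {H0 : ℝ} (p : Idx L → ℤ)
    (hp : ∀ x, |(p x : ℝ)| ≤ exp H0) {m1 m2 : ℕ} (h1 : m1 ≤ k) (h2 : m2 ≤ k) :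
    ∑ x : Idx L, |cf d p m1 m2 x| ≤ cst0 L k d.B H0 := by
  calc ∑ x : Idx L, |cf d p m1 m2 x|
      ≤ ∑ _x : Idx L, exp H0 * (2 * L * d.B) ^ (2 * k) :=
        Finset.sum_le_sum (fun x _ => cf_le d hL p hp h1 h2 x)
    _ = cst0 L k d.B H0 := by
        rw [Finset.sum_const, Finset.card_univ, nsmul_eq_mul, card_idx]
        unfold cst0
        ring

theorem pow_exp_le {a Q : ℝ} (h : |a| ≤ exp Q) (n : ℕ) : |a ^ n| ≤ exp (Q * n) := by
  rw [abs_pow]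
  calc |a| ^ n ≤ (exp Q) ^ n := pow_le_pow_left₀ (abs_nonneg _) h _
    _ = exp (Q * n) := by rw [← exp_nat_mul]; ring_nf

theorem term_le (d : BData O) {L l h' : ℕ} (hl : l ≤ h') (x : Idx L) (j : Fin 4) :
    |O.σ j (term d L x l)| ≤ exp (3 * d.Q * L * h') := by
  unfold term
  simp only [map_mul, map_pow, map_natCast]
  have hQ := d.hQ
  have hD : |(d.D : ℝ)| ≤ exp d.Q := by
    rw [abs_of_nonneg (Nat.cast_nonneg _)]; exact d.cD
  rw [abs_mul, abs_mul, abs_mul]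
  have e1 := pow_exp_le (d.c1 j) ((x.1 : ℕ) * l)
  have e2 := pow_exp_le (d.c2 j) ((x.2.1 : ℕ) * l)
  have e3 := pow_exp_le (d.c3 j) ((x.2.2 : ℕ) * l)
  have e4 := pow_exp_le hD ((L - (x.2.2 : ℕ)) * l)
  have hx3 : (x.2.2 : ℕ) ≤ L := Nat.lt_succ_iff.1 x.2.2.isLt
  have i1 := idx_le1 x
  have i2 := idx_le2 x
  have hl' : (l : ℝ) ≤ h' := by exact_mod_cast hl
  have hl0 : (0 : ℝ) ≤ l := Nat.cast_nonneg _
  have hL0 : (0 : ℝ) ≤ L := Nat.cast_nonneg _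
  calc |O.σ j d.α1 ^ ((x.1 : ℕ) * l)| * |O.σ j d.α2 ^ ((x.2.1 : ℕ) * l)| *
        |O.σ j d.η ^ ((x.2.2 : ℕ) * l)| * |(d.D : ℝ) ^ ((L - (x.2.2 : ℕ)) * l)|
      ≤ exp (d.Q * ((x.1 : ℕ) * l : ℕ)) * exp (d.Q * ((x.2.1 : ℕ) * l : ℕ)) *
        exp (d.Q * ((x.2.2 : ℕ) * l : ℕ)) * exp (d.Q * ((L - (x.2.2 : ℕ)) * l : ℕ)) := by
        gcongr
    _ = exp (d.Q * ((((x.1 : ℕ) : ℝ) + ((x.2.1 : ℕ) : ℝ) + L) * l)) := by
        rw [← exp_add, ← exp_add, ← exp_add]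
        congr 1
        push_cast [Nat.cast_sub hx3]
        ring
    _ ≤ exp (3 * d.Q * L * h') := by
        apply exp_le_exp.2
        have a1 : (((x.1 : ℕ) : ℝ) + ((x.2.1 : ℕ) : ℝ) + L) * l ≤ (3 * L) * h' := by
          apply mul_le_mul _ hl' hl0 (by positivity)
          linarith
        have := mul_le_mul_of_nonneg_left a1 (show (0 : ℝ) ≤ d.Q by linarith)
        calc d.Q * ((((x.1 : ℕ) : ℝ) + ((x.2.1 : ℕ) : ℝ) + L) * l) ≤ d.Q * ((3 * L) * h') := this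
          _ = 3 * d.Q * L * h' := by ring

theorem term0 (d : BData O) {L : ℕ} (x : Idx L) (l : ℕ) :
    O.σ 0 (term d L x l) = (d.D : ℝ) ^ (L * l) * exp (l * ww d x) := by
  unfold term ww
  simp only [map_mul, map_pow, map_natCast, d.s1, d.s2, d.s3]
  have hx3 : (x.2.2 : ℕ) ≤ L := Nat.lt_succ_iff.1 x.2.2.isLt
  have a1 : d.a1 ^ ((x.1 : ℕ) * l) = exp (((x.1 : ℕ) : ℝ) * l * log d.a1) := by
    rw [← exp_log (pow_pos d.p1 _), log_pow]
    push_cast; ring_nf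
  have a2 : d.a2 ^ ((x.2.1 : ℕ) * l) = exp (((x.2.1 : ℕ) : ℝ) * l * log d.a2) := by
    rw [← exp_log (pow_pos d.p2 _), log_pow]
    push_cast; ring_nf
  have a3 : d.a3 ^ ((x.2.2 : ℕ) * l) = exp (((x.2.2 : ℕ) : ℝ) * l * log d.a3) := by
    rw [← exp_log (pow_pos d.p3 _), log_pow]
    push_cast; ring_nf
  have hDD : (d.D : ℝ) ^ (L * l) =
      (d.D : ℝ) ^ ((x.2.2 : ℕ) * l) * (d.D : ℝ) ^ ((L - (x.2.2 : ℕ)) * l) := by
    rw [← pow_add, ← add_mul, Nat.add_sub_cancel' hx3]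
  have hexp : exp ((l : ℝ) * (((x.1 : ℕ) : ℝ) * log d.a1 + ((x.2.1 : ℕ) : ℝ) * log d.a2 +
      ((x.2.2 : ℕ) : ℝ) * log d.a3)) = exp (((x.1 : ℕ) : ℝ) * l * log d.a1) *
      exp (((x.2.1 : ℕ) : ℝ) * l * log d.a2) * exp (((x.2.2 : ℕ) : ℝ) * l * log d.a3) := by
    rw [← exp_add, ← exp_add]
    congr 1
    ring
  rw [mul_pow, a1, a2, a3, hDD, hexp]
  ring

theorem map_sum0 (d : BData O) {L : ℕ} (p : Idx L → ℤ) (m1 m2 l : ℕ) :
    O.σ 0 (∑ x : Idx L, ((p x * gam1 d x ^ m1 * gam2 d x ^ m2 : ℤ) : S) * term d L x l) =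
      (d.D : ℝ) ^ (L * l) * ∑ x : Idx L, cf d p m1 m2 x * exp (l * ww d x) := by
  rw [map_sum, Finset.mul_sum]
  refine Finset.sum_congr rfl (fun x _ => ?_)
  rw [map_mul, term0, map_intCast]
  unfold cf
  push_cast
  ring

theorem map_sum_le (d : BData O) {L k l h' : ℕ} (hL : 1 ≤ L) {H0 : ℝ} (p : Idx L → ℤ)
    (hp : ∀ x, |(p x : ℝ)| ≤ exp H0) {m1 m2 : ℕ} (h1 : m1 ≤ k) (h2 : m2 ≤ k) (hl : l ≤ h')
    (j : Fin 4) :
    |O.σ j (∑ x : Idx L, ((p x * gam1 d x ^ m1 * gam2 d x ^ m2 : ℤ) : S) * term d L x l)| ≤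
      cst0 L k d.B H0 * exp (3 * d.Q * L * h') := by
  rw [map_sum]
  refine (Finset.abs_sum_le_sum_abs _ _).trans ?_
  calc ∑ x : Idx L, |O.σ j (((p x * gam1 d x ^ m1 * gam2 d x ^ m2 : ℤ) : S) * term d L x l)|
      ≤ ∑ x : Idx L, |cf d p m1 m2 x| * exp (3 * d.Q * L * h') := by
        refine Finset.sum_le_sum (fun x _ => ?_)
        rw [map_mul, map_intCast, abs_mul]
        have e : (((p x * gam1 d x ^ m1 * gam2 d x ^ m2 : ℤ)) : ℝ) = cf d p m1 m2 x := by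
          unfold cf
          push_cast
          ring
        rw [e]
        exact mul_le_mul_of_nonneg_left (term_le d hl x j) (abs_nonneg _)
    _ = (∑ x : Idx L, |cf d p m1 m2 x|) * exp (3 * d.Q * L * h') := by rw [Finset.sum_mul]
    _ ≤ cst0 L k d.B H0 * exp (3 * d.Q * L * h') :=
        mul_le_mul_of_nonneg_right (sum_cf_le d hL p hp h1 h2) (exp_pos _).le

theorem zero_real (d : BData O) {L k h : ℕ} (p : Idx L → ℤ) (hZ : Zero d L p k h)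
    {m1 m2 l : ℕ} (h1 : m1 ≤ k) (h2 : m2 ≤ k) (hl : 1 ≤ l) (hl' : l ≤ h) :
    ∑ x : Idx L, cf d p m1 m2 x * exp (l * ww d x) = 0 := by
  have h := congrArg (O.σ 0) (hZ m1 m2 l h1 h2 hl hl')
  rw [map_sum0, map_zero] at h
  have hD : (0 : ℝ) < (d.D : ℝ) ^ (L * l) := by
    have := d.hD
    positivity
  rcases mul_eq_zero.1 h with h | h
  · exact absurd h hD.ne'
  · exact h

/-- the binomial step -/
theorem zero_th (d : BData O) {L k h : ℕ} (p : Idx L → ℤ) (hZ : Zero d L p (2 * k) h)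
    {m1 m2 l j : ℕ} (h1 : m1 ≤ k) (h2 : m2 ≤ k) (hj : j ≤ k) (hl : 1 ≤ l) (hl' : l ≤ h) :
    ∑ x : Idx L, cf d p m1 m2 x * th d x ^ j * exp (l * ww d x) = 0 := by
  have key : ∀ x : Idx L, cf d p m1 m2 x * th d x ^ j * exp (l * ww d x) =
      ∑ i ∈ Finset.range (j + 1), (log d.a1 ^ i * log d.a2 ^ (j - i) * (j.choose i : ℝ)) *
        (cf d p (m1 + i) (m2 + (j - i)) x * exp (l * ww d x)) := by
    intro x
    unfold th
    rw [add_pow, Finset.mul_sum, Finset.sum_mul]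
    refine Finset.sum_congr rfl (fun i _ => ?_)
    unfold cf
    rw [mul_pow, mul_pow, pow_add, pow_add]
    ring
  simp_rw [key]
  rw [Finset.sum_comm]
  refine Finset.sum_eq_zero (fun i hi => ?_)
  rw [← Finset.mul_sum]
  have hi' : i ≤ j := Nat.lt_succ_iff.1 (Finset.mem_range.1 hi)
  rw [zero_real d p hZ (by omega) (by omega) hl hl', mul_zero]

theorem ww_sub_th (d : BData O) {L : ℕ} (x : Idx L) : |ww d x - th d x| ≤ L * exp (-d.B) := by
  have e : ww d x - th d x = ((x.2.2 : ℕ) : ℝ) *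
      ((d.b1 : ℝ) * log d.a1 + (d.b2 : ℝ) * log d.a2 + log d.a3) := by
    unfold ww th gam1 gam2
    push_cast
    ring
  rw [e, abs_mul, abs_of_nonneg (Nat.cast_nonneg _)]
  exact mul_le_mul (idx_le3 x) d.hΛ (abs_nonneg _) (Nat.cast_nonneg _)

theorem ww_le (d : BData O) {L : ℕ} (x : Idx L) : |ww d x| ≤ 3 * L * d.Q := by
  unfold ww
  have h1 := idx_le1 x
  have h2 := idx_le2 x
  have h3 := idx_le3 x
  have hQ := d.hQ
  have aux : ∀ (a b : ℝ), 0 ≤ a → a ≤ L → |b| ≤ d.Q → |a * b| ≤ L * d.Q := by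
    intro a b ha ha' hb
    rw [abs_mul, abs_of_nonneg ha]
    exact mul_le_mul ha' hb (abs_nonneg _) (Nat.cast_nonneg _)
  have b1 := aux _ _ (Nat.cast_nonneg _) h1 d.l1
  have b2 := aux _ _ (Nat.cast_nonneg _) h2 d.l2
  have b3 := aux _ _ (Nat.cast_nonneg _) h3 d.l3
  have t1 := abs_add_le (((x.1 : ℕ) : ℝ) * log d.a1 + ((x.2.1 : ℕ) : ℝ) * log d.a2)
    (((x.2.2 : ℕ) : ℝ) * log d.a3)
  have t2 := abs_add_le (((x.1 : ℕ) : ℝ) * log d.a1) (((x.2.1 : ℕ) : ℝ) * log d.a2)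
  linarith

theorem approx (d : BData O) {L k h : ℕ} (hL : 1 ≤ L) {H0 : ℝ} (p : Idx L → ℤ)
    (hp : ∀ x, |(p x : ℝ)| ≤ exp H0) (hZ : Zero d L p (2 * k) h)
    {m1 m2 l j : ℕ} (h1 : m1 ≤ k) (h2 : m2 ≤ k) (hj : j < k) (hl : 1 ≤ l) (hl' : l ≤ h) :
    |∑ x : Idx L, cf d p m1 m2 x * ww d x ^ j * exp (l * ww d x)| ≤
      cst0 L k d.B H0 * (k * L * (4 * L * d.Q) ^ k * exp (3 * L * d.Q * h - d.B)) := by
  have hQ := d.hQ
  have hL' : (1 : ℝ) ≤ L := by exact_mod_cast hL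
  have hLQ : (1 : ℝ) ≤ L * d.Q := by nlinarith
  have h0 := zero_th d p hZ h1 h2 hj.le hl hl'
  have e : ∑ x : Idx L, cf d p m1 m2 x * ww d x ^ j * exp (l * ww d x) =
      ∑ x : Idx L, cf d p m1 m2 x * ((ww d x ^ j - th d x ^ j) * exp (l * ww d x)) := by
    have : ∑ x : Idx L, cf d p m1 m2 x * ww d x ^ j * exp (l * ww d x) =
        ∑ x : Idx L, cf d p m1 m2 x * ww d x ^ j * exp (l * ww d x) -
          ∑ x : Idx L, cf d p m1 m2 x * th d x ^ j * exp (l * ww d x) := by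
      rw [h0, sub_zero]
    rw [this, ← Finset.sum_sub_distrib]
    refine Finset.sum_congr rfl (fun x _ => ?_)
    ring
  rw [e]
  refine (Finset.abs_sum_le_sum_abs _ _).trans ?_
  have hterm : ∀ x : Idx L, |(ww d x ^ j - th d x ^ j) * exp (l * ww d x)| ≤
      k * L * (4 * L * d.Q) ^ k * exp (3 * L * d.Q * h - d.B) := by
    intro x
    have w1 := ww_le d x
    have w2 := ww_sub_th d x
    have hexp1 : exp (-d.B) ≤ 1 := by
      rw [exp_le_one_iff]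
      have := d.hB
      linarith
    have w3 : |th d x| ≤ 4 * L * d.Q := by
      have t : |th d x| ≤ |ww d x| + |ww d x - th d x| := by
        have := abs_sub (ww d x) (ww d x - th d x)
        rwa [show ww d x - (ww d x - th d x) = th d x by ring] at this
      have : (L : ℝ) * exp (-d.B) ≤ L * d.Q :=
        mul_le_mul_of_nonneg_left (hexp1.trans hQ) (by positivity)
      linarith
    have w4 : max |ww d x| |th d x| ≤ 4 * L * d.Q := max_le (by linarith) w3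
    have hmax0 : 0 ≤ max |ww d x| |th d x| := le_max_of_le_left (abs_nonneg _)
    have w5 : |ww d x ^ j - th d x ^ j| ≤ L * exp (-d.B) * k * (4 * L * d.Q) ^ k := by
      calc |ww d x ^ j - th d x ^ j|
          ≤ |ww d x - th d x| * j * max |ww d x| |th d x| ^ (j - 1) := abs_pow_sub_pow_le _ _ _
        _ ≤ (L * exp (-d.B)) * k * (4 * L * d.Q) ^ k := by
            have hjk : (j : ℝ) ≤ k := by exact_mod_cast hj.le
            have hp1 : max |ww d x| |th d x| ^ (j - 1) ≤ (4 * L * d.Q) ^ k :=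
              (pow_le_pow_left₀ hmax0 w4 _).trans
                (pow_le_pow_right₀ (by nlinarith) (by omega))
            apply mul_le_mul _ hp1 (by positivity) (by positivity)
            exact mul_le_mul w2 hjk (by positivity) (by positivity)
    rw [abs_mul, abs_of_pos (exp_pos _)]
    have w6 : exp (l * ww d x) ≤ exp (3 * L * d.Q * h) := by
      apply exp_le_exp.2
      have hlh : (l : ℝ) ≤ h := by exact_mod_cast hl'
      calc (l : ℝ) * ww d x ≤ l * |ww d x| :=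
            mul_le_mul_of_nonneg_left (le_abs_self _) (Nat.cast_nonneg _)
        _ ≤ h * (3 * L * d.Q) := mul_le_mul hlh w1 (abs_nonneg _) (Nat.cast_nonneg _)
        _ = 3 * L * d.Q * h := by ring
    calc |ww d x ^ j - th d x ^ j| * exp (l * ww d x)
        ≤ (L * exp (-d.B) * k * (4 * L * d.Q) ^ k) * exp (3 * L * d.Q * h) :=
          mul_le_mul w5 w6 (exp_pos _).le (by positivity)
      _ = k * L * (4 * L * d.Q) ^ k * exp (3 * L * d.Q * h - d.B) := by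
          rw [sub_eq_add_neg, exp_add]
          ring
  calc ∑ x : Idx L, |cf d p m1 m2 x * ((ww d x ^ j - th d x ^ j) * exp (l * ww d x))|
      ≤ ∑ x : Idx L, |cf d p m1 m2 x| *
          (k * L * (4 * L * d.Q) ^ k * exp (3 * L * d.Q * h - d.B)) := by
        refine Finset.sum_le_sum (fun x _ => ?_)
        rw [abs_mul]
        exact mul_le_mul_of_nonneg_left (hterm x) (abs_nonneg _)
    _ = (∑ x : Idx L, |cf d p m1 m2 x|) *
          (k * L * (4 * L * d.Q) ^ k * exp (3 * L * d.Q * h - d.B)) := by rw [Finset.sum_mul]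
    _ ≤ _ := mul_le_mul_of_nonneg_right (sum_cf_le d hL p hp h1 h2) (by positivity)

end Basic

/-- EXT. -/
theorem ext (hAle : AleStatement) : ExtStatement := by
  intro S _ O d L k h h' H0 p hL hk hh hhh' hp hE hZ m1 m2 l' h1 h2 hl1 hl2
  by_contra hne
  have hQ := d.hQ
  have hB := d.hB
  have hL' : (1 : ℝ) ≤ L := by exact_mod_cast hL
  have hnorm := O.norm_ge _ hne
  set K : ℝ := cst0 L k d.B H0 * exp (3 * d.Q * L * h') with hK
  have hc0 : 0 < cst0 L k d.B H0 := by unfold cst0; positivity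
  have hK0 : 0 < K := mul_pos hc0 (exp_pos _)
  have hle : ∀ j, |O.σ j (∑ x : Idx L, ((p x * gam1 d x ^ m1 * gam2 d x ^ m2 : ℤ) : S) *
      term d L x l')| ≤ K := fun j => map_sum_le d hL p hp h1 h2 hl2 j
  -- the analytic estimate
  have hcond : ∀ l j : ℕ, 1 ≤ l → l ≤ h → j < k →
      |∑ x : Idx L, cf d p m1 m2 x * ww d x ^ j * exp (l * ww d x)| ≤
        cst0 L k d.B H0 * (k * L * (4 * L * d.Q) ^ k * exp (3 * L * d.Q * h - d.B)) :=
    fun l j hl hl' hj => approx d hL p hp hZ h1 h2 hj hl hl'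
  have hA := hAle (Idx L) (cf d p m1 m2) (ww d) (cst0 L k d.B H0) (3 * L * d.Q)
    (cst0 L k d.B H0 * (k * L * (4 * L * d.Q) ^ k * exp (3 * L * d.Q * h - d.B))) h k hh hk
    (by positivity) (by positivity) (sum_cf_le d hL p hp h1 h2) (ww_le d) hcond
    (h' : ℝ) (l' : ℝ) (by exact_mod_cast hhh') (Nat.cast_nonneg _) (by exact_mod_cast hl2)
  have hsm : |O.σ 0 (∑ x : Idx L, ((p x * gam1 d x ^ m1 * gam2 d x ^ m2 : ℤ) : S) *
      term d L x l')| < exp (-(3 * (log (cst0 L k d.B H0) + 3 * d.Q * L * h'))) := by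
    refine lt_of_le_of_lt ?_ hE
    rw [map_sum0, abs_mul]
    apply mul_le_mul _ hA (abs_nonneg _) (exp_pos _).le
    have hD : |(d.D : ℝ)| ≤ exp d.Q := by
      rw [abs_of_nonneg (Nat.cast_nonneg _)]; exact d.cD
    refine (pow_exp_le hD (L * l')).trans (exp_le_exp.2 ?_)
    push_cast
    have : (l' : ℝ) ≤ h' := by exact_mod_cast hl2
    have h3 : (0 : ℝ) ≤ d.Q * L := by positivity
    calc d.Q * ((L : ℝ) * l') = d.Q * L * l' := by ring
      _ ≤ d.Q * L * h' := mul_le_mul_of_nonneg_left this h3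
  have hKeq : exp (-(3 * (log (cst0 L k d.B H0) + 3 * d.Q * L * h'))) * K ^ 3 = 1 := by
    have hKe : K = exp (log (cst0 L k d.B H0) + 3 * d.Q * L * h') := by
      rw [exp_add, exp_log hc0]
    rw [hKe, ← exp_nat_mul, ← exp_add]
    push_cast
    rw [neg_add_cancel, exp_zero]
  have hprod : ∏ j, |O.σ j (∑ x : Idx L, ((p x * gam1 d x ^ m1 * gam2 d x ^ m2 : ℤ) : S) *
      term d L x l')| < 1 := by
    rw [Fin.prod_univ_four]
    set A0 := |O.σ 0 (∑ x : Idx L, ((p x * gam1 d x ^ m1 * gam2 d x ^ m2 : ℤ) : S) *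
      term d L x l')|
    have u1 := hle 1
    have u2 := hle 2
    have u3 := hle 3
    calc A0 * |O.σ 1 _| * |O.σ 2 _| * |O.σ 3 _|
        ≤ A0 * K * K * K := by
          have hA0 : 0 ≤ A0 := abs_nonneg _
          gcongr
      _ = A0 * K ^ 3 := by ring
      _ < exp (-(3 * (log (cst0 L k d.B H0) + 3 * d.Q * L * h'))) * K ^ 3 :=
          mul_lt_mul_of_pos_right hsm (by positivity)
      _ = 1 := hKeq
  exact absurd hnorm (not_le.2 hprod)

end Pool.Agent.DIO.H9
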